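import Mathlib
import Pool.Agent.Lib.MP_8f75c8_lc.Alg

namespace Pool.Agent.Results.MP_8f75c8_lc.PolyTime

/-- `s` is the crease pattern (`true` = V, `false` = M); crease `i` (numbered from 0) joins the
segments `i` and `i + 1`; `h a` is the height rank of segment `a` (larger = higher). -/
def Folded (s : List Bool) (h : Equiv.Perm (Fin (s.length + 1))) : Prop :=
  (∀ i j : Fin s.length, i ≠ j → i.val % 2 = j.val % 2 →
    ¬ (min (h i.castSucc) (h i.succ) < min (h j.castSucc) (h j.succ) ∧
      min (h j.castSucc) (h j.succ) < max (h i.castSucc) (h i.succ) ∧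
      max (h i.castSucc) (h i.succ) < max (h j.castSucc) (h j.succ))) ∧
  ∀ i : Fin s.length, (s.get i = true ↔
    if i.val % 2 = 0 then h i.castSucc < h i.succ else h i.succ < h i.castSucc)

/-- the number of folded states consistent with `s` -/
noncomputable def N (s : List Bool) : ℕ :=
  Nat.card {h : Equiv.Perm (Fin (s.length + 1)) // Folded s h}

theorem result : Nonempty (Turing.TM2ComputableInPolyTime (fun s : List Bool => s)
    Computability.encodeNat N) :=
  Pool.Agent.Lib.MP_8f75c8_lc.main

end Pool.Agent.Results.MP_8f75c8_lc.PolyTime
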